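import Pool.Agent.H695R3.PP.Stmts

/-!
# Project LP (MP_0eac64_mp): TaskChain, the limit of a chain of eigenvectors
-/

set_option autoImplicit false

open scoped BigOperators ENNReal Topology
open MeasureTheory Filter

namespace Pool.Agent.Run7.h165.LP

open Pool.Agent.H695R3.PP

abbrev l2 : Type := lp (fun _ : ℤ => ℝ) 2

theorem mem_of_supp {a b : ℤ} {f : ℤ → ℝ} (h : ∀ n, n < a ∨ b < n → f n = 0) :
    Memℓp f 2 := by
  refine memℓp_gen (summable_of_ne_finset_zero (s := Finset.Icc a b) fun n hn => ?_)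
  rw [Finset.mem_Icc, not_and_or, not_le, not_le] at hn
  rw [h n hn]
  simp

theorem norm_sq_l2 (f : l2) : ‖f‖ ^ 2 = ∑' n, f n ^ 2 := by
  have h := lp.norm_rpow_eq_tsum (p := 2) (by norm_num) f
  simp only [ENNReal.toReal_ofNat, Real.norm_eq_abs] at h
  have h2 : ∀ x : ℝ, x ^ (2 : ℝ) = x ^ 2 := fun x => by
    rw [← Real.rpow_natCast]; norm_num
  simp only [h2, sq_abs] at h
  exact h

theorem summable_l2 (f : l2) : Summable fun n => f n ^ 2 := by
  have h := (lp.memℓp f).summable (by norm_num)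
  simp only [ENNReal.toReal_ofNat, Real.norm_eq_abs] at h
  have h2 : ∀ x : ℝ, x ^ (2 : ℝ) = x ^ 2 := fun x => by
    rw [← Real.rpow_natCast]; norm_num
  simp only [h2, sq_abs] at h
  exact h

theorem tsum_supp {a b : ℤ} {f : ℤ → ℝ} (h : ∀ n, n < a ∨ b < n → f n = 0) :
    ∑' n, f n = ∑ n ∈ Finset.Icc a b, f n := by
  refine tsum_eq_sum fun n hn => ?_
  rw [Finset.mem_Icc, not_and_or, not_le, not_le] at hn
  exact h n hn

/-- the state of the chain -/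
structure St (V : ℤ → ℝ) (L : ℕ) (a : ℝ) where
  E : ℝ
  ψ : ℤ → ℝ
  eig : IsEig V (-(L : ℤ)) L E ψ
  low : a ≤ |ψ 0|

theorem exists_next (hStep : TaskStep) {V : ℤ → ℝ} {L L' : ℕ} {a a' τ d : ℝ} (hL : L < L')
    (hτ : 0 < τ) (hd : 0 < d) (h1 : ¬ Bad1 L a τ V) (h2 : ¬ Bad2 L' d V) (h3 : 4 * τ ≤ d)
    (h4 : a' + 4 * τ / d ≤ a) (s : St V L a) :
    ∃ s' : St V L' a', |s'.E - s.E| ≤ 2 * τ ∧
      ∑ n ∈ Finset.Icc (-(L' : ℤ)) L', (s.ψ n - s'.ψ n) ^ 2 ≤ (4 * τ / d) ^ 2 := by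
  have hb : ¬ (τ ≤ |s.ψ L| ∨ τ ≤ |s.ψ (-(L : ℤ))|) := fun hh => h1 ⟨s.E, s.ψ, s.eig, s.low, hh⟩
  rw [not_or, not_le, not_le] at hb
  obtain ⟨E', φ, e1, e2, e3⟩ := hStep V L L' s.E τ d s.ψ hL hτ h3 h2 s.eig hb.1.le hb.2.le
  refine ⟨⟨E', φ, e1, ?_⟩, e2, e3⟩
  have h5 : (s.ψ 0 - φ 0) ^ 2 ≤ (4 * τ / d) ^ 2 :=
    (Finset.single_le_sum (f := fun n => (s.ψ n - φ n) ^ 2) (fun _ _ => sq_nonneg _)
      (by rw [Finset.mem_Icc]; omega : (0 : ℤ) ∈ Finset.Icc (-(L' : ℤ)) L')).trans e3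
  have h6 : |s.ψ 0 - φ 0| ≤ 4 * τ / d := abs_le_of_sq_le_sq h5 (by positivity)
  have h7 := s.low
  have h8 : |s.ψ 0| ≤ |s.ψ 0 - φ 0| + |φ 0| := by
    have := abs_add_le (s.ψ 0 - φ 0) (φ 0)
    rwa [sub_add_cancel] at this
  linarith

theorem t_CHAIN (hStep : TaskStep) : TaskChain := by
  intro V L a τ d k₀ hL hpos hB1 hB2 h4 ha hs1 hs2 E ψ hψ hψ0
  -- the chain
  have hnext : ∀ j : ℕ, ∀ s : St V (L (k₀ + j)) (a (k₀ + j)),
      ∃ s' : St V (L (k₀ + j + 1)) (a (k₀ + j + 1)), |s'.E - s.E| ≤ 2 * τ (k₀ + j) ∧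
        ∑ n ∈ Finset.Icc (-(L (k₀ + j + 1) : ℤ)) (L (k₀ + j + 1)), (s.ψ n - s'.ψ n) ^ 2 ≤
          (4 * τ (k₀ + j) / d (k₀ + j + 1)) ^ 2 := by
    intro j s
    exact exists_next hStep (hL (Nat.lt_succ_self _)) (hpos _).2.1 (hpos _).2.2
      (hB1 _ (by omega)) (hB2 _ (by omega)) (h4 _ (by omega)) (ha _ (by omega)) s
  choose nx hnx1 hnx2 using hnext
  let S : ∀ j : ℕ, St V (L (k₀ + j)) (a (k₀ + j)) :=
    fun j => Nat.rec (motive := fun j => St V (L (k₀ + j)) (a (k₀ + j))) ⟨E, ψ, hψ, hψ0⟩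
      (fun j s => nx j s) j
  have hS : ∀ j, S (j + 1) = nx j (S j) := fun j => rfl
  have hS0 : (S 0).ψ = ψ := rfl
  -- in l2
  let u : ℕ → l2 := fun j => ⟨(S j).ψ, mem_of_supp (S j).eig.1⟩
  have hu : ∀ j n, u j n = (S j).ψ n := fun j n => rfl
  have hdu : ∀ j, dist (u j) (u (j + 1)) ≤ 4 * τ (k₀ + j) / d (k₀ + j + 1) := by
    intro j
    rw [dist_eq_norm]
    refine abs_le_of_sq_le_sq' ?_ ?_ |>.2
    · rw [norm_sq_l2, tsum_supp (a := -(L (k₀ + j + 1) : ℤ)) (b := L (k₀ + j + 1))]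
      · exact hnx2 j (S j)
      · intro n hn
        have hlt : L (k₀ + j) < L (k₀ + j + 1) := hL (Nat.lt_succ_self _)
        have e1 : (S j).ψ n = 0 := (S j).eig.1 n (by omega)
        have e2 : (S (j + 1)).ψ n = 0 := (S (j + 1)).eig.1 n hn
        change ((S j).ψ n - (S (j + 1)).ψ n) ^ 2 = 0
        rw [e1, e2]; simp
    · have := (hpos (k₀ + j)).2.1
      have := (hpos (k₀ + j + 1)).2.2
      positivity
  have hsr : Summable fun j => 4 * τ (k₀ + j) / d (k₀ + j + 1) := by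
    have := ((summable_nat_add_iff k₀).2 hs1).mul_left 4
    refine this.congr fun j => ?_
    rw [add_comm j k₀, mul_div_assoc]
  have hsr2 : Summable fun j => 2 * τ (k₀ + j) := by
    have := ((summable_nat_add_iff k₀).2 hs2).mul_left 2
    refine this.congr fun j => ?_
    rw [add_comm j k₀]
  have hcu : CauchySeq u := cauchySeq_of_dist_le_of_summable _ hdu hsr
  obtain ⟨v, hv⟩ := cauchySeq_tendsto_of_complete hcu
  have hdist := dist_le_tsum_of_dist_le_of_tendsto₀ _ hdu hsr hv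
  have hcE : CauchySeq fun j => (S j).E := by
    refine cauchySeq_of_dist_le_of_summable _ (fun j => ?_) hsr2
    rw [dist_comm, Real.dist_eq]
    exact hnx1 j (S j)
  obtain ⟨e, hE⟩ := cauchySeq_tendsto_of_complete hcE
  have hpt : ∀ n, Tendsto (fun j => (S j).ψ n) atTop (𝓝 (v n)) := by
    intro n
    have := (tendsto_iff_norm_sub_tendsto_zero.1 hv)
    rw [tendsto_iff_norm_sub_tendsto_zero]
    refine squeeze_zero (fun _ => norm_nonneg _) (fun j => ?_) this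
    exact lp.norm_apply_le_norm (by norm_num) (u j - v) n
  refine ⟨e, v, summable_l2 v, fun n => ?_, ?_, ?_⟩
  · have hlim := ((hpt (n + 1)).add (hpt (n - 1))).add ((hpt n).const_mul (V n))
    have hlim2 := hE.mul (hpt n)
    refine tendsto_nhds_unique_of_eventuallyEq hlim hlim2 ?_
    have hLt : Tendsto (fun j => L (k₀ + j)) atTop atTop :=
      hL.tendsto_atTop.comp (tendsto_add_atTop_nat k₀ |>.congr fun j => by rw [add_comm])
    filter_upwards [hLt.eventually_ge_atTop n.natAbs] with j hj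
    exact (S j).eig.2.2 n (by omega) (by omega)
  · have := summable_l2 (u 0 - v)
    exact this
  · have h1 : ∑' n, (ψ n - v n) ^ 2 = ‖u 0 - v‖ ^ 2 := by
      rw [norm_sq_l2]; rfl
    rw [h1, ← dist_eq_norm]
    have h2 : ∑' j, 4 * τ (k₀ + j) / d (k₀ + j + 1) =
        4 * ∑' j, τ (k₀ + j) / d (k₀ + j + 1) := by
      rw [← tsum_mul_left]
      simp only [mul_div_assoc]
    rw [h2] at hdist
    exact pow_le_pow_left₀ dist_nonneg hdist 2

end Pool.Agent.Run7.h165.LP
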