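import Pool.Agent.Run7.h165.LP.Chain

/-!
# Project LP (MP_0eac64_mp): TaskDelta
-/

set_option autoImplicit false

open scoped BigOperators ENNReal Topology
open MeasureTheory Filter

namespace Pool.Agent.Run7.h165.LP

open Pool.Agent.H695R3.PP

abbrev c2 : Type := lp (fun _ : ℤ => ℂ) 2

/-- complexification -/
noncomputable def cx (f : l2) : c2 :=
  ⟨fun n => (f n : ℂ), by
    have h := lp.memℓp f
    refine memℓp_gen ((h.summable (by norm_num)).congr fun n => ?_)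
    rw [Complex.norm_real]⟩

theorem cx_apply (f : l2) (n : ℤ) : cx f n = (f n : ℂ) := rfl

theorem cx_norm (f : l2) : ‖cx f‖ = ‖f‖ := by
  have h1 := lp.norm_rpow_eq_tsum (p := 2) (by norm_num) f
  have h2 := lp.norm_rpow_eq_tsum (p := 2) (by norm_num) (cx f)
  simp only [ENNReal.toReal_ofNat, cx_apply, Complex.norm_real] at h1 h2
  have h3 : ‖cx f‖ ^ (2 : ℝ) = ‖f‖ ^ (2 : ℝ) := by rw [h1, h2]
  exact (Real.rpow_left_inj (norm_nonneg _) (norm_nonneg _) (by norm_num)).1 h3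

theorem cx_sub (f g : l2) : cx (f - g) = cx f - cx g := by
  ext n
  simp [cx_apply]

theorem cx_smul_mem {V : ℤ → ℝ} {f : l2} (h : cx f ∈ EigSpan V) (c : ℝ) :
    cx (c • f) ∈ EigSpan V := by
  have : cx (c • f) = (c : ℂ) • cx f := by
    ext n
    change (((c * f n : ℝ)) : ℂ) = (c : ℂ) * (f n : ℂ)
    push_cast
    rfl
  rw [this]
  exact Submodule.smul_mem _ _ h

theorem cx_sum_mem {V : ℤ → ℝ} {ι : Type} (s : Finset ι) (f : ι → l2)
    (h : ∀ i ∈ s, cx (f i) ∈ EigSpan V) : cx (∑ i ∈ s, f i) ∈ EigSpan V := by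
  classical
  induction s using Finset.induction_on with
  | empty =>
    have : cx (∑ i ∈ (∅ : Finset ι), f i) = 0 := by
      ext n
      simp [cx_apply]
    rw [this]
    exact Submodule.zero_mem _
  | insert i s hi ih =>
    have : cx (∑ i ∈ insert i s, f i) = cx (f i) + cx (∑ i ∈ s, f i) := by
      rw [Finset.sum_insert hi]
      ext n
      simp [cx_apply]
    rw [this]
    exact Submodule.add_mem _ (h i (Finset.mem_insert_self _ _))
      (ih fun j hj => h j (Finset.mem_insert_of_mem hj))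

theorem cx_eig_mem {V : ℤ → ℝ} {f : l2} {e : ℝ}
    (h : ∀ n, f (n + 1) + f (n - 1) + V n * f n = e * f n) : cx f ∈ EigSpan V := by
  refine Submodule.subset_span ⟨e, fun n => ?_⟩
  simp only [cx_apply]
  exact_mod_cast h n

/-- the delta at zero -/
noncomputable def del : l2 := lp.single 2 (0 : ℤ) (1 : ℝ)

theorem cx_del : cx del = lp.single 2 (0 : ℤ) (1 : ℂ) := by
  ext n
  rw [cx_apply]
  unfold del
  by_cases h : n = 0
  · subst h
    simp
  · simp [lp.single_apply_ne, h]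

theorem step_bound (hChain : TaskChain) (hCompl : TaskCompl) {V : ℤ → ℝ} {L : ℕ → ℕ}
    {a τ d : ℕ → ℝ} {k₀ : ℕ} (hL : StrictMono L)
    (hpos : ∀ k, 0 < a k ∧ 0 < τ k ∧ 0 < d k) (hB1 : ∀ k, k₀ ≤ k → ¬ Bad1 (L k) (a k) (τ k) V)
    (hB2 : ∀ k, k₀ ≤ k → ¬ Bad2 (L (k + 1)) (d (k + 1)) V)
    (h4 : ∀ k, k₀ ≤ k → 4 * τ k ≤ d (k + 1))
    (ha : ∀ k, k₀ ≤ k → a (k + 1) + 4 * τ k / d (k + 1) ≤ a k)
    (hs1 : Summable (fun k => τ k / d (k + 1))) (hs2 : Summable τ) :
    ∃ w : l2, cx w ∈ EigSpan V ∧ ‖del - w‖ ≤ Real.sqrt ((2 * (L k₀ : ℝ) + 1) * a k₀ ^ 2) +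
      (2 * (L k₀ : ℝ) + 1) * (4 * ∑' j, τ (k₀ + j) / d (k₀ + j + 1)) := by
  classical
  obtain ⟨e, ψ, hψ, hδ, hP⟩ := hCompl V (L k₀)
  set T : ℝ := 4 * ∑' j, τ (k₀ + j) / d (k₀ + j + 1) with hT
  have hT0 : 0 ≤ T := by
    have : 0 ≤ ∑' j, τ (k₀ + j) / d (k₀ + j + 1) :=
      tsum_nonneg fun j => (div_pos (hpos _).2.1 (hpos _).2.2).le
    positivity
  have hgood : ∀ j, a k₀ ≤ |ψ j 0| → ∃ φ : l2, cx φ ∈ EigSpan V ∧
      ‖(⟨ψ j, mem_of_supp (hψ j).1⟩ : l2) - φ‖ ≤ T := by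
    intro j hj
    obtain ⟨e', φ, h1, h2, h3, h5⟩ := hChain V L a τ d k₀ hL hpos hB1 hB2 h4 ha hs1 hs2 (e j)
      (ψ j) (hψ j) hj
    have hm : Memℓp φ 2 := by
      refine memℓp_gen (h1.congr fun n => ?_)
      simp only [ENNReal.toReal_ofNat, Real.norm_eq_abs]
      rw [show (2 : ℝ) = ((2 : ℕ) : ℝ) by norm_num, Real.rpow_natCast, sq_abs]
    refine ⟨⟨φ, hm⟩, cx_eig_mem (e := e') h2, ?_⟩
    refine abs_le_of_sq_le_sq' ?_ hT0 |>.2
    rw [norm_sq_l2]
    exact h5
  choose! φ hφ1 hφ2 using hgood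
  let G : Finset (Fin (2 * L k₀ + 1)) := Finset.univ.filter fun j => a k₀ ≤ |ψ j 0|
  let u : Fin (2 * L k₀ + 1) → l2 := fun j => ⟨ψ j, mem_of_supp (hψ j).1⟩
  have hdel : del = ∑ j, ψ j 0 • u j := by
    ext n
    have h1 : (del : l2) n = if n = 0 then (1 : ℝ) else 0 := by
      unfold del
      by_cases h : n = 0
      · subst h; simp
      · simp [lp.single_apply_ne, h]
    rw [h1, hδ n, lp.coeFn_sum, Finset.sum_apply]
    rfl
  have hone : ∀ j, |ψ j 0| ≤ 1 := by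
    intro j
    have h1 : ψ j 0 ^ 2 ≤ 1 := by
      rw [← (hψ j).2.1]
      exact Finset.single_le_sum (f := fun n => ψ j n ^ 2) (fun _ _ => sq_nonneg _)
        (by rw [Finset.mem_Icc]; omega : (0 : ℤ) ∈ Finset.Icc (-(L k₀ : ℤ)) (L k₀))
    exact (sq_le_one_iff_abs_le_one _).1 h1
  refine ⟨∑ j ∈ G, ψ j 0 • φ j, cx_sum_mem _ _ fun j hj =>
    cx_smul_mem (hφ1 j (Finset.mem_filter.1 hj).2) _, ?_⟩
  have hsplit : del - ∑ j ∈ G, ψ j 0 • φ j =
      (∑ j ∈ Gᶜ, ψ j 0 • u j) + ∑ j ∈ G, ψ j 0 • (u j - φ j) := by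
    rw [hdel, ← Finset.sum_compl_add_sum G, add_sub_assoc, ← Finset.sum_sub_distrib]
    simp only [smul_sub]
  rw [hsplit]
  refine (norm_add_le _ _).trans (add_le_add ?_ ?_)
  · -- the bad part
    let c : Fin (2 * L k₀ + 1) → ℝ := fun j => if j ∈ G then 0 else ψ j 0
    have h1 : (∑ j ∈ Gᶜ, ψ j 0 • u j) = ∑ j, c j • u j := by
      rw [← Finset.sum_compl_add_sum G]
      have : ∑ j ∈ G, c j • u j = 0 := by
        refine Finset.sum_eq_zero fun j hj => ?_
        simp [c, hj]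
      rw [this, add_zero]
      refine Finset.sum_congr rfl fun j hj => ?_
      have : j ∉ G := by simpa using hj
      simp [c, this]
    have h2 : ‖∑ j, c j • u j‖ ^ 2 = ∑ j, c j ^ 2 := by
      rw [norm_sq_l2, ← hP c, tsum_supp (a := -(L k₀ : ℤ)) (b := L k₀)]
      · refine Finset.sum_congr rfl fun n _ => ?_
        rw [lp.coeFn_sum, Finset.sum_apply]
        rfl
      · intro n hn
        have : (∑ j, c j • u j : l2) n = 0 := by
          rw [lp.coeFn_sum, Finset.sum_apply]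
          refine Finset.sum_eq_zero fun j _ => ?_
          change c j * ψ j n = 0
          rw [(hψ j).1 n hn, mul_zero]
        rw [this]; simp
    rw [h1]
    refine Real.le_sqrt_of_sq_le ?_
    rw [h2]
    have h3 : ∀ j, c j ^ 2 ≤ a k₀ ^ 2 := by
      intro j
      by_cases hj : j ∈ G
      · simp [c, hj]; positivity
      · simp only [c, hj, if_false]
        have : ¬ a k₀ ≤ |ψ j 0| := by simpa [G] using hj
        rw [← sq_abs]
        exact pow_le_pow_left₀ (abs_nonneg _) (not_le.1 this).le 2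
    calc ∑ j, c j ^ 2 ≤ ∑ _j : Fin (2 * L k₀ + 1), a k₀ ^ 2 := Finset.sum_le_sum fun j _ => h3 j
      _ = _ := by
          rw [Finset.sum_const, Finset.card_univ, Fintype.card_fin, nsmul_eq_mul]
          push_cast; ring
  · calc ‖∑ j ∈ G, ψ j 0 • (u j - φ j)‖ ≤ ∑ j ∈ G, ‖ψ j 0 • (u j - φ j)‖ := norm_sum_le _ _
      _ ≤ ∑ j ∈ G, T := by
          refine Finset.sum_le_sum fun j hj => ?_
          rw [norm_smul, Real.norm_eq_abs]
          calc |ψ j 0| * ‖u j - φ j‖ ≤ 1 * T :=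
                mul_le_mul (hone j) (hφ2 j (Finset.mem_filter.1 hj).2) (norm_nonneg _)
                  zero_le_one
            _ = T := one_mul _
      _ ≤ ∑ _j : Fin (2 * L k₀ + 1), T :=
          Finset.sum_le_sum_of_subset_of_nonneg (Finset.subset_univ _) fun _ _ _ => hT0
      _ = _ := by
          rw [Finset.sum_const, Finset.card_univ, Fintype.card_fin, nsmul_eq_mul]
          push_cast; ring

theorem t_DELTA (hChain : TaskChain) (hCompl : TaskCompl) : TaskDelta := by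
  intro V L a τ d hL hpos hB1 hB2 h4 ha hs1 hs2 ht1 ht2
  obtain ⟨K, hK⟩ := eventually_atTop.1 (hB1.and (hB2.and (h4.and ha)))
  have h := fun k : ℕ => step_bound hChain hCompl (k₀ := K + k) hL hpos
    (fun j hj => (hK j (by omega)).1) (fun j hj => (hK j (by omega)).2.1)
    (fun j hj => (hK j (by omega)).2.2.1) (fun j hj => (hK j (by omega)).2.2.2) hs1 hs2
  choose w hw1 hw2 using h
  have htK : Tendsto (fun k : ℕ => K + k) atTop atTop :=
    (tendsto_add_atTop_nat K).congr fun k => by rw [add_comm]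
  have hlim : Tendsto (fun k => Real.sqrt ((2 * (L (K + k) : ℝ) + 1) * a (K + k) ^ 2) +
      (2 * (L (K + k) : ℝ) + 1) * (4 * ∑' j, τ (K + k + j) / d (K + k + j + 1))) atTop (𝓝 0) := by
    have h1 := (Real.continuous_sqrt.tendsto 0).comp (ht1.comp htK)
    rw [Real.sqrt_zero] at h1
    have h2 := (ht2.comp htK).const_mul 4
    rw [mul_zero] at h2
    have h3 := h1.add h2
    rw [add_zero] at h3
    refine h3.congr fun k => ?_
    simp only [Function.comp]
    ring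
  have hto : Tendsto (fun k => cx (w k)) atTop (𝓝 (lp.single 2 (0 : ℤ) (1 : ℂ))) := by
    rw [← cx_del, tendsto_iff_norm_sub_tendsto_zero]
    refine squeeze_zero (fun _ => norm_nonneg _) (fun k => ?_) hlim
    rw [norm_sub_rev, ← cx_sub, cx_norm]
    exact hw2 k
  exact mem_closure_of_tendsto (s := (EigSpan V : Set c2)) hto (Eventually.of_forall hw1)

end Pool.Agent.Run7.h165.LP
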