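import Pool.Agent.Run7.h165.LP.Par

/-!
# Project LP (MP_0eac64_mp): the random limit-periodic potentials
-/

set_option autoImplicit false

open scoped BigOperators ENNReal Topology
open MeasureTheory Filter

namespace Pool.Agent.Run7.h165.LP

open Pool.Agent.H695R3.PP

/-- clipping to `[-1, 1]` -/
noncomputable def clip (x : ℝ) : ℝ := max (-1) (min 1 x)

theorem clip_abs (x : ℝ) : |clip x| ≤ 1 := by
  unfold clip
  rw [abs_le]
  exact ⟨le_max_left _ _, max_le (by norm_num) (min_le_left _ _)⟩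

theorem clip_eq {x : ℝ} (h : x ∈ Set.Icc (-1 : ℝ) 1) : clip x = x := by
  unfold clip
  rw [min_eq_right h.2, max_eq_right h.1]

theorem clip_zero : clip 0 = 0 := clip_eq (by simp)

theorem clip_cont : Continuous clip := by unfold clip; fun_prop

section

variable {Ω : Type} [AddCommGroup Ω] [TopologicalSpace Ω] [IsTopologicalAddGroup Ω]

/-- the sample space -/
abbrev XX (H : ℕ → AddSubgroup Ω) : Type := ∀ k : ℕ, (Ω ⧸ H k) → ℝ

/-- the coset map -/
def mk {H : AddSubgroup Ω} (ω : Ω) : Ω ⧸ H := QuotientAddGroup.mk ω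

/-- the series -/
noncomputable def ser (H : ℕ → AddSubgroup Ω) (e : ℝ) (x : XX H) (ω : Ω) : ℝ :=
  ∑' k, eps e k * clip (x k (mk ω))

theorem term_le {H : ℕ → AddSubgroup Ω} {e : ℝ} (he : 0 < e) (x : XX H) (ω : Ω) (k : ℕ) :
    ‖eps e k * clip (x k (mk ω))‖ ≤ eps e k := by
  rw [norm_mul, Real.norm_eq_abs, Real.norm_eq_abs, abs_of_pos (eps_pos he k)]
  exact mul_le_of_le_one_right (eps_pos he k).le (clip_abs _)

theorem ser_summable {H : ℕ → AddSubgroup Ω} {e : ℝ} (he : 0 < e) (x : XX H) (ω : Ω) :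
    Summable fun k => eps e k * clip (x k (mk ω)) :=
  Summable.of_norm_bounded eps_sum.summable (term_le he x ω)

theorem ser_abs {H : ℕ → AddSubgroup Ω} {e : ℝ} (he : 0 < e) (x : XX H) (ω : Ω) :
    |ser H e x ω| ≤ e := by
  have h := tsum_of_norm_bounded (eps_sum (e := e)) (term_le he x ω)
  rwa [Real.norm_eq_abs] at h

theorem ser_cont {H : ℕ → AddSubgroup Ω} (hH : ∀ k, IsOpen (H k : Set Ω)) {e : ℝ} (he : 0 < e)
    (x : XX H) : Continuous (ser H e x) := by
  unfold ser
  refine continuous_tsum (fun k => ?_) eps_sum.summable (fun k ω => term_le he x ω k)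
  refine continuous_const.mul (clip_cont.comp ?_)
  have hd : DiscreteTopology (Ω ⧸ H k) := QuotientAddGroup.discreteTopology (hH k)
  exact (continuous_of_discreteTopology (f := x k)).comp QuotientAddGroup.continuous_mk

theorem ser_update {H : ℕ → AddSubgroup Ω} {e : ℝ} (he : 0 < e) (x : XX H) (k : ℕ)
    (y : (Ω ⧸ H k) → ℝ) (ω : Ω) :
    ser H e (Function.update x k y) ω =
      ser H e (Function.update x k 0) ω + eps e k * clip (y (mk ω)) := by
  unfold ser
  rw [(ser_summable he (Function.update x k y) ω).tsum_eq_add_tsum_ite k,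
    (ser_summable he (Function.update x k 0) ω).tsum_eq_add_tsum_ite k]
  have h : ∀ j : ℕ, (if j = k then (0 : ℝ) else
      eps e j * clip (Function.update x k y j (mk ω))) =
      if j = k then 0 else eps e j * clip (Function.update x k 0 j (mk ω)) := by
    intro j
    split_ifs with hj
    · rfl
    · rw [Function.update_of_ne hj, Function.update_of_ne hj]
  simp only [h, Function.update_self, Pi.zero_apply, clip_zero, mul_zero, zero_add]
  ring

variable [MeasurableSpace Ω] [BorelSpace Ω]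

theorem coord_meas {H : ℕ → AddSubgroup Ω} (hH : ∀ k, IsOpen (H k : Set Ω))
    (hF : ∀ k, Finite (Ω ⧸ H k)) (k : ℕ) :
    Measurable fun p : XX H × Ω => p.1 k (mk p.2) := by
  intro s hs
  have h : (fun p : XX H × Ω => p.1 k (mk p.2)) ⁻¹' s =
      ⋃ c : Ω ⧸ H k, ((fun x : XX H => x k c) ⁻¹' s) ×ˢ ((mk : Ω → Ω ⧸ H k) ⁻¹' {c}) := by
    ext p
    simp only [Set.mem_preimage, Set.mem_iUnion, Set.mem_prod, Set.mem_singleton_iff]
    constructor
    · intro hp
      exact ⟨mk p.2, hp, rfl⟩
    · rintro ⟨c, hc, hc2⟩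
      rw [hc2]; exact hc
  rw [h]
  have := hF k
  refine MeasurableSet.iUnion fun c => MeasurableSet.prod ?_ ?_
  · exact ((measurable_pi_apply c).comp (measurable_pi_apply k)) hs
  · have hd : DiscreteTopology (Ω ⧸ H k) := QuotientAddGroup.discreteTopology (hH k)
    exact ((isOpen_discrete {c}).preimage QuotientAddGroup.continuous_mk).measurableSet

theorem ser_meas {H : ℕ → AddSubgroup Ω} (hH : ∀ k, IsOpen (H k : Set Ω))
    (hF : ∀ k, Finite (Ω ⧸ H k)) {e : ℝ} (he : 0 < e) :
    Measurable fun p : XX H × Ω => ser H e p.1 p.2 := by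
  refine measurable_of_tendsto_metrizable (f := fun N (p : XX H × Ω) =>
    ∑ k ∈ Finset.range N, eps e k * clip (p.1 k (mk p.2))) (fun N => ?_)
    (tendsto_pi_nhds.2 fun p => (ser_summable he p.1 p.2).hasSum.tendsto_sum_nat)
  refine Finset.measurable_sum _ fun k _ => ?_
  exact (clip_cont.measurable.comp (coord_meas hH hF k)).const_mul _

/-- the potential seen from the site `m` -/
noncomputable def pot (H : ℕ → AddSubgroup Ω) (e : ℝ) (f : Ω → ℝ) (α : Ω) (x : XX H) (ω : Ω)
    (m : ℤ) (n : ℤ) : ℝ := f (ω + (m + n) • α) + ser H e x (ω + (m + n) • α)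

theorem pot_meas {H : ℕ → AddSubgroup Ω} (hH : ∀ k, IsOpen (H k : Set Ω))
    (hF : ∀ k, Finite (Ω ⧸ H k)) {e : ℝ} (he : 0 < e) {f : Ω → ℝ} (hf : Continuous f) (α : Ω)
    (m : ℤ) : Measurable fun p : XX H × Ω => pot H e f α p.1 p.2 m := by
  refine measurable_pi_lambda _ fun n => ?_
  unfold pot
  have h1 : Measurable fun p : XX H × Ω => p.2 + (m + n) • α :=
    (continuous_add_const ((m + n) • α)).measurable.comp measurable_snd
  exact (hf.measurable.comp h1).add ((ser_meas hH hF he).comp (measurable_fst.prodMk h1))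

end

/-- window events -/
def Win (L : ℕ) (B : Set (ℤ → ℝ)) : Prop :=
  ∀ V V' : ℤ → ℝ, (∀ n, -(L : ℤ) ≤ n → n ≤ L → V n = V' n) → (V ∈ B ↔ V' ∈ B)

theorem isEig_congr {a b : ℤ} {V V' : ℤ → ℝ} (h : ∀ n, a ≤ n → n ≤ b → V n = V' n) (E : ℝ)
    (ψ : ℤ → ℝ) : IsEig V a b E ψ ↔ IsEig V' a b E ψ := by
  unfold IsEig
  refine and_congr_right fun _ => and_congr_right fun _ => ?_
  refine forall_congr' fun n => forall_congr' fun h1 => forall_congr' fun h2 => ?_
  rw [h n h1 h2]

theorem win_bad1 (L : ℕ) (a τ : ℝ) : Win L {V | Bad1 L a τ V} := by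
  intro V V' h
  simp only [Set.mem_setOf_eq, Bad1, isEig_congr h]

theorem win_bad2 (L : ℕ) (d : ℝ) : Win L {V | Bad2 L d V} := by
  intro V V' h
  simp only [Set.mem_setOf_eq, Bad2, isEig_congr h]

theorem U_ae : ∀ᵐ s ∂U, s ∈ Set.Icc (-1 : ℝ) 1 := by
  unfold U
  exact Measure.ae_smul_measure (ae_restrict_mem measurableSet_Icc) _

theorem pi_ae (Q : Type) [Fintype Q] :
    ∀ᵐ y ∂(Measure.pi fun _ : Q => U), ∀ c, y c ∈ Set.Icc (-1 : ℝ) 1 := by
  rw [ae_all_iff]
  intro c
  exact (measurePreserving_eval (fun _ : Q => U) c).quasiMeasurePreserving.ae U_ae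

section

variable {Ω : Type} [AddCommGroup Ω] [TopologicalSpace Ω] [IsTopologicalAddGroup Ω]
  [MeasurableSpace Ω] [BorelSpace Ω]

/-- the law of the sample -/
noncomputable def law (H : ℕ → AddSubgroup Ω) [∀ k, Fintype (Ω ⧸ H k)] : Measure (XX H) :=
  Measure.infinitePi fun k => Measure.pi fun _ : Ω ⧸ H k => U

instance (H : ℕ → AddSubgroup Ω) [∀ k, Fintype (Ω ⧸ H k)] : IsProbabilityMeasure (law H) := by
  unfold law; infer_instance

theorem key (hTr : TaskTransfer) {H : ℕ → AddSubgroup Ω} [∀ k, Fintype (Ω ⧸ H k)]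
    (hH : ∀ k, IsOpen (H k : Set Ω)) {e : ℝ} (he : 0 < e) {f : Ω → ℝ}
    (hf : Continuous f) {R : ℝ} (hR : ∀ ω, |f ω| + e ≤ R) (α : Ω) (L : ℕ) (k : ℕ)
    (hG : ∀ j : ℤ, j ≠ 0 → |j| ≤ 2 * L → j • α ∉ H k) {B : Set (ℤ → ℝ)} (hB : MeasurableSet B)
    (hW : Win L B) (p : ℝ≥0∞)
    (hp : ∀ W : ℤ → ℝ, (∀ n, |W n| ≤ R) → PZ {x | (fun n => W n + eps e k * x n) ∈ B} ≤ p)
    (ω : Ω) (m : ℤ) : law H {x | pot H e f α x ω m ∈ B} ≤ p := by
  have hF : ∀ k, Finite (Ω ⧸ H k) := fun k => inferInstance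
  have hm : Measurable fun x : XX H => pot H e f α x ω m :=
    (pot_meas hH hF he hf α m).comp (measurable_id.prodMk measurable_const)
  have hS : MeasurableSet {x | pot H e f α x ω m ∈ B} := hm hB
  have hup := Pool.Agent.H853R3.PP.Resample.measurable_upd (X := fun k => (Ω ⧸ H k) → ℝ) k
  have h1 := Pool.Agent.H853R3.PP.Resample.taskResample ℕ (fun k => (Ω ⧸ H k) → ℝ)
    (fun k => Measure.pi fun _ : Ω ⧸ H k => U) k
  have h2 : law H {x | pot H e f α x ω m ∈ B} =
      ((law H).prod (Measure.pi fun _ : Ω ⧸ H k => U))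
        ((fun q : XX H × ((Ω ⧸ H k) → ℝ) => Function.update q.1 k q.2) ⁻¹'
          {x | pot H e f α x ω m ∈ B}) := by
    rw [← Measure.map_apply hup hS]
    unfold law
    rw [h1]
  rw [h2, Measure.prod_apply (hup hS)]
  calc ∫⁻ x, (Measure.pi fun _ : Ω ⧸ H k => U) (Prod.mk x ⁻¹'
        ((fun q : XX H × ((Ω ⧸ H k) → ℝ) => Function.update q.1 k q.2) ⁻¹'
          {x | pot H e f α x ω m ∈ B})) ∂law H
      ≤ ∫⁻ _, p ∂law H := by
        refine lintegral_mono fun x => ?_
        set W : ℤ → ℝ := fun n => f (ω + (m + n) • α) +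
          ser H e (Function.update x k 0) (ω + (m + n) • α) with hWd
        have h3 : (Measure.pi fun _ : Ω ⧸ H k => U) (Prod.mk x ⁻¹'
            ((fun q : XX H × ((Ω ⧸ H k) → ℝ) => Function.update q.1 k q.2) ⁻¹'
              {x | pot H e f α x ω m ∈ B})) =
            (Measure.pi fun _ : Ω ⧸ H k => U)
              {y | (fun n => W n + eps e k * y (mk (ω + (m + n) • α))) ∈ B} := by
          refine measure_congr ?_
          filter_upwards [pi_ae (Ω ⧸ H k)] with y hy
          have h4 : pot H e f α (Function.update x k y) ω m =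
              fun n => W n + eps e k * y (mk (ω + (m + n) • α)) := by
            funext n
            rw [hWd]
            unfold pot
            rw [ser_update he, clip_eq (hy _)]
            ring
          change (pot H e f α (Function.update x k y) ω m ∈ B) = _
          rw [h4]
          rfl
        rw [h3, hTr (Ω ⧸ H k) (fun n => mk (ω + (m + n) • α)) L W (eps e k) B ?_ hB hW]
        · refine hp W fun n => ?_
          rw [hWd]
          refine (abs_add_le _ _).trans ((add_le_add le_rfl (ser_abs he _ _)).trans (hR _))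
        · intro n hn n' hn' hnn
          by_contra hne
          have h5 : (-(ω + (m + n) • α) + (ω + (m + n') • α)) ∈ H k :=
            QuotientAddGroup.eq.1 hnn
          have h6 : -(ω + (m + n) • α) + (ω + (m + n') • α) = (n' - n) • α := by
            have : (m + n') • α = (m + n) • α + (n' - n) • α := by
              rw [← add_smul]; congr 1; ring
            rw [this]; abel
          rw [h6] at h5
          refine hG (n' - n) (by omega) ?_ h5
          rw [Set.mem_Icc] at hn hn'
          rw [abs_le]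
          omega
    _ = p := by rw [lintegral_const, measure_univ, mul_one]

end

end Pool.Agent.Run7.h165.LP
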