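import Pool.Agent.Run7.h165.LP.Fin

/-!
# Project LP (MP_0eac64_mp): the theorem from the pieces
-/

set_option autoImplicit false

open scoped BigOperators ENNReal Topology
open MeasureTheory Filter

namespace Pool.Agent.Run7.h165.LP

open Pool.Agent.H695R3.PP

theorem meas_ev {X : Type} [MeasurableSpace X] {S : ℕ → Set X} (h : ∀ k, MeasurableSet (S k)) :
    MeasurableSet {p : X | ∀ᶠ k in atTop, p ∈ S k} := by
  simp only [eventually_atTop, Set.setOf_exists, Set.setOf_forall]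
  exact MeasurableSet.iUnion fun N => MeasurableSet.iInter fun k =>
    MeasurableSet.iInter fun _ => h k

theorem exists_pot (hG1 : TaskG1) (hG2 : TaskG2) (hMeas : TaskMeas) (hDelta : TaskDelta)
    (hTop : TaskTop) (hGrp : TaskGroup) (hTr : TaskTransfer) (hNum : TaskNum)
    (Ω : Type) [AddCommGroup Ω] [TopologicalSpace Ω] [IsTopologicalAddGroup Ω]
    [CompactSpace Ω] [T2Space Ω] [TotallyDisconnectedSpace Ω]
    [TopologicalSpace.MetrizableSpace Ω] [Infinite Ω]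
    [MeasurableSpace Ω] [BorelSpace Ω]
    (μ : Measure Ω) [μ.IsAddHaarMeasure] (α : Ω)
    (hα : Dense (Set.range (fun n : ℤ => n • α))) (f : C(Ω, ℝ)) (e : ℝ) (he : 0 < e)
    (he1 : e ≤ 1) :
    ∃ g : C(Ω, ℝ), (∀ ω, |g ω - f ω| ≤ e) ∧
      ∀ᵐ ω ∂μ, (EigSpan fun n => g (ω + n • α)).topologicalClosure = ⊤ := by
  classical
  obtain ⟨c, C, hc, hc2, hC, h1⟩ := hG1
  obtain ⟨C', hC', h2⟩ := hG2
  -- the subgroups
  choose H hH hHf hHα using fun k : ℕ => hGrp Ω α hα (2 * LL k)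
  haveI : ∀ k, Fintype (Ω ⧸ H k) := fun k => @Fintype.ofFinite _ (hHf k)
  have hG : ∀ k, ∀ j : ℤ, j ≠ 0 → |j| ≤ 2 * LL k → j • α ∉ H k := by
    intro k j hj hj2
    exact hHα k j hj (by push_cast; exact hj2)
  set R : ℝ := ‖f‖ + 1 with hRd
  have hR1 : 1 ≤ R := by rw [hRd]; linarith [norm_nonneg f]
  have hR : ∀ ω, |f ω| + e ≤ R := fun ω => add_le_add (f.norm_coe_le_norm ω) he1
  set κ : ℝ := 2 * c * e ^ 2 with hκd
  have hκ : 0 < κ := by positivity
  -- the almost sure statement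
  have hae : ∀ ω : Ω, ∀ᵐ x ∂law H, ∀ m : ℤ,
      (∀ᶠ k in atTop, ¬ Bad1 (LL k) (aa k) (tau κ k) (pot H e f α x ω m)) ∧
      (∀ᶠ k in atTop, ¬ Bad2 (LL (k + 1)) (dd e (k + 1)) (pot H e f α x ω m)) := by
    intro ω
    rw [ae_all_iff]
    intro m
    have hb1 : ∀ k, law H {x | pot H e f α x ω m ∈ {V | Bad1 (LL k) (aa k) (tau κ k) V}} ≤
        ENNReal.ofReal (C * R ^ 2 / (eps e k ^ 3 * aa k ^ 2 * tau κ k) *
          (1 - c * eps e k ^ 2) ^ LL k) := by
      intro k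
      refine key hTr hH he f.continuous hR α (LL k) k (hG k) (hMeas.1 _ _ _) (win_bad1 _ _ _) _
        (fun W hW => ?_) ω m
      exact h1 (eps e k) R (aa k) (tau κ k) W (LL k) (eps_pos he k) (eps_le he he1 k) hR1 hW
        (aa_pos k) (tau_pos _ _) (Nat.one_le_pow _ _ (by norm_num))
    have hb2 : ∀ k, law H {x | pot H e f α x ω m ∈ {V | Bad2 (LL k) (dd e k) V}} ≤
        ENNReal.ofReal (C' * ((LL k : ℝ) + 1) ^ 4 * dd e k / eps e k) := by
      intro k
      refine key hTr hH he f.continuous hR α (LL k) k (hG k) (hMeas.2 _ _) (win_bad2 _ _) _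
        (fun W hW => ?_) ω m
      exact h2 (eps e k) (dd e k) W (LL k) (eps_pos he k) (dd_pos he k)
    have hs1 : ∑' k, law H {x | pot H e f α x ω m ∈ {V | Bad1 (LL k) (aa k) (tau κ k) V}} ≠ ⊤ :=
      ne_top_of_le_ne_top (sumP1 hNum (R := R) he he1 hc hc2 hC).tsum_ofReal_ne_top
        (ENNReal.tsum_le_tsum hb1)
    have hs2 : ∑' k, law H {x | pot H e f α x ω m ∈ {V | Bad2 (LL k) (dd e k) V}} ≠ ⊤ :=
      ne_top_of_le_ne_top (sumP2 (C := C') he).tsum_ofReal_ne_top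
        (ENNReal.tsum_le_tsum hb2)
    filter_upwards [ae_eventually_notMem hs1, ae_eventually_notMem hs2] with x hx1 hx2
    exact ⟨hx1, (tendsto_add_atTop_nat 1).eventually hx2⟩
  -- Fubini
  haveI : SFinite μ := inferInstance
  have hmeas : MeasurableSet {p : XX H × Ω | ∀ m : ℤ,
      (∀ᶠ k in atTop, ¬ Bad1 (LL k) (aa k) (tau κ k) (pot H e f α p.1 p.2 m)) ∧
      (∀ᶠ k in atTop, ¬ Bad2 (LL (k + 1)) (dd e (k + 1)) (pot H e f α p.1 p.2 m))} := by
    have hm := fun m => pot_meas (f := f) hH hHf he f.continuous α m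
    rw [Set.setOf_forall]
    refine MeasurableSet.iInter fun m => ?_
    have hA : MeasurableSet {p : XX H × Ω | ∀ᶠ k in atTop,
        ¬ Bad1 (LL k) (aa k) (tau κ k) (pot H e f α p.1 p.2 m)} :=
      meas_ev fun k => ((hm m) (hMeas.1 (LL k) (aa k) (tau κ k))).compl
    have hB : MeasurableSet {p : XX H × Ω | ∀ᶠ k in atTop,
        ¬ Bad2 (LL (k + 1)) (dd e (k + 1)) (pot H e f α p.1 p.2 m)} :=
      meas_ev fun k =>
        ((hm m) (hMeas.2 (LL (k + 1)) (dd e (k + 1)))).compl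
    exact hA.inter hB
  have hfub := (Measure.ae_ae_comm (μ := law H) (ν := μ) hmeas).2
    (Eventually.of_forall hae)
  obtain ⟨x, hx⟩ := hfub.exists
  refine ⟨⟨fun ω => f ω + ser H e x ω, f.continuous.add (ser_cont hH he x)⟩, fun ω => ?_, ?_⟩
  · change |f ω + ser H e x ω - f ω| ≤ e
    rw [add_sub_cancel_left]
    exact ser_abs he x ω
  · filter_upwards [hx] with ω hω
    refine hTop _ fun m => ?_
    exact hDelta (fun n => f (ω + (m + n) • α) + ser H e x (ω + (m + n) • α))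
      LL aa (tau κ) (dd e) strict_LL
      (fun k => ⟨aa_pos k, tau_pos _ k, dd_pos he k⟩) (hω m).1 (hω m).2 (ev1 hNum he hκ)
      (ev2 hNum he hκ) (sum_ratio hNum he hκ) (sum_tau hNum hκ) tend1 (tend2 hNum he hκ)

theorem final (hG1 : TaskG1) (hG2 : TaskG2) (hMeas : TaskMeas) (hDelta : TaskDelta)
    (hTop : TaskTop) (hGrp : TaskGroup) (hTr : TaskTransfer) (hNum : TaskNum) :
    ∀ (Ω : Type) [AddCommGroup Ω] [TopologicalSpace Ω] [IsTopologicalAddGroup Ω]
      [CompactSpace Ω] [T2Space Ω] [TotallyDisconnectedSpace Ω]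
      [TopologicalSpace.MetrizableSpace Ω] [Infinite Ω]
      [MeasurableSpace Ω] [BorelSpace Ω]
      (μ : Measure Ω) [μ.IsAddHaarMeasure] (α : Ω),
      Dense (Set.range (fun n : ℤ => n • α)) →
      ∃ D : Set C(Ω, ℝ), Dense D ∧
        ∀ f ∈ D, ∀ᵐ ω ∂μ,
          (Submodule.span ℂ
            {ψ : lp (fun _ : ℤ => ℂ) 2 |
              ∃ E : ℝ, ∀ n : ℤ,
                ψ (n + 1) + ψ (n - 1) + (f (ω + n • α) : ℂ) * ψ n = (E : ℂ) * ψ n}
            ).topologicalClosure = ⊤ := by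
  intro Ω _ _ _ _ _ _ _ _ _ _ μ _ α hα
  refine ⟨{g | ∀ᵐ ω ∂μ, (EigSpan fun n => g (ω + n • α)).topologicalClosure = ⊤}, ?_,
    fun f hf => hf⟩
  rw [Metric.dense_iff]
  intro f r hr
  obtain ⟨g, hg1, hg2⟩ := exists_pot hG1 hG2 hMeas hDelta hTop hGrp hTr hNum Ω μ α hα f
    (min (r / 2) 1) (by positivity) (min_le_right _ _)
  refine ⟨g, ?_, hg2⟩
  rw [Metric.mem_ball]
  refine lt_of_le_of_lt ((ContinuousMap.dist_le (by positivity : (0:ℝ) ≤ r / 2)).2 fun ω => ?_)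
    (half_lt_self hr)
  rw [Real.dist_eq]
  exact (hg1 ω).trans (min_le_left _ _)

end Pool.Agent.Run7.h165.LP
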