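import Pool.Agent.H853R3.PP.TaskResample

/-!
# Project LP (MP_0eac64_mp): the parameters of the multiscale scheme
-/

set_option autoImplicit false

open scoped BigOperators ENNReal Topology
open MeasureTheory Filter

namespace Pool.Agent.Run7.h165.LP

open Pool.Agent.H695R3.PP

/-- strength of the level `k` -/
noncomputable def eps (e : ℝ) (k : ℕ) : ℝ := e / 2 ^ (k + 1)

/-- size of the box -/
def LL (k : ℕ) : ℕ := 16 ^ (k + 1)

noncomputable def aa (k : ℕ) : ℝ := 1 / ((LL k : ℝ) + 1)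

noncomputable def tau (κ : ℝ) (k : ℕ) : ℝ := Real.exp (-(κ * 4 ^ k))

noncomputable def dd (e : ℝ) (k : ℕ) : ℝ := e / 2 ^ (k + 1) / ((LL k : ℝ) + 1) ^ 4 / 2 ^ k

theorem eps_pos {e : ℝ} (he : 0 < e) (k : ℕ) : 0 < eps e k := by unfold eps; positivity

theorem eps_le {e : ℝ} (he : 0 < e) (h1 : e ≤ 1) (k : ℕ) : eps e k ≤ 1 := by
  unfold eps
  rw [div_le_one (by positivity)]
  exact h1.trans (one_le_pow₀ (by norm_num))

theorem eps_sum {e : ℝ} : HasSum (eps e) e := by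
  have h := hasSum_geometric_two' e
  have h2 : eps e = fun n : ℕ => e / 2 / 2 ^ n := by
    funext n
    unfold eps
    rw [pow_succ]
    field_simp
  rw [h2]
  exact h

theorem strict_LL : StrictMono LL := by
  refine strictMono_nat_of_lt_succ fun k => ?_
  unfold LL
  exact Nat.pow_lt_pow_right (by norm_num) (by omega)

theorem aa_pos (k : ℕ) : 0 < aa k := by unfold aa; positivity
theorem tau_pos (κ : ℝ) (k : ℕ) : 0 < tau κ k := Real.exp_pos _
theorem dd_pos {e : ℝ} (he : 0 < e) (k : ℕ) : 0 < dd e k := by unfold dd; positivity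

theorem LLr (k : ℕ) : (LL k : ℝ) = 16 * 16 ^ k := by
  unfold LL; push_cast; ring

theorem tend0 (hN : TaskNum) {κ A : ℝ} (hκ : 0 < κ) (hA : 1 ≤ A) :
    Tendsto (fun k : ℕ => A ^ k * Real.exp (-(κ * 4 ^ k))) atTop (𝓝 0) :=
  (hN κ A hκ hA).1.tendsto_atTop_zero

theorem bdd0 (hN : TaskNum) {κ A : ℝ} (hκ : 0 < κ) (hA : 1 ≤ A) :
    ∃ M : ℝ, 0 < M ∧ ∀ k : ℕ, A ^ k * Real.exp (-(κ * 4 ^ k)) ≤ M := by
  obtain ⟨M, hM⟩ := (tend0 hN hκ hA).bddAbove_range
  refine ⟨max M 1, by positivity, fun k => ?_⟩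
  exact (hM ⟨k, rfl⟩).trans (le_max_left _ _)

/-- the ratio `τ_k / d_{k+1}` -/
theorem ratio_le {e κ : ℝ} (he : 0 < e) (k : ℕ) :
    tau κ k / dd e (k + 1) ≤ (8 * 257 ^ 4 / e) * (262144 ^ k * Real.exp (-(κ * 4 ^ k))) := by
  unfold tau dd
  rw [LLr]
  have h1 : (16 * 16 ^ (k + 1) : ℝ) + 1 ≤ 257 * 16 ^ k := by
    have : (1 : ℝ) ≤ 16 ^ k := one_le_pow₀ (by norm_num)
    rw [pow_succ]; linarith
  have h2 : ((16 * 16 ^ (k + 1) : ℝ) + 1) ^ 4 ≤ (257 * 16 ^ k) ^ 4 :=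
    pow_le_pow_left₀ (by positivity) h1 4
  have h3 : Real.exp (-(κ * 4 ^ k)) /
      (e / 2 ^ (k + 1 + 1) / ((16 * 16 ^ (k + 1) : ℝ) + 1) ^ 4 / 2 ^ (k + 1)) =
      Real.exp (-(κ * 4 ^ k)) * (((16 * 16 ^ (k + 1) : ℝ) + 1) ^ 4 * (8 * 4 ^ k) / e) := by
    have h4 : (4 : ℝ) ^ k = 2 ^ k * 2 ^ k := by
      rw [← mul_pow]; norm_num
    rw [h4, pow_succ, pow_succ]
    field_simp
    ring
  rw [h3]
  have h5 : (262144 : ℝ) ^ k = (16 ^ k) ^ 4 * 4 ^ k := by
    rw [← pow_mul, mul_comm k 4, pow_mul, ← mul_pow]; norm_num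
  rw [h5]
  calc Real.exp (-(κ * 4 ^ k)) * (((16 * 16 ^ (k + 1) : ℝ) + 1) ^ 4 * (8 * 4 ^ k) / e)
      ≤ Real.exp (-(κ * 4 ^ k)) * ((257 * 16 ^ k) ^ 4 * (8 * 4 ^ k) / e) := by gcongr
    _ = _ := by ring

theorem ratio_pos {e κ : ℝ} (he : 0 < e) (k : ℕ) : 0 < tau κ k / dd e (k + 1) :=
  div_pos (tau_pos _ _) (dd_pos he _)

theorem sum_ratio (hN : TaskNum) {e κ : ℝ} (he : 0 < e) (hκ : 0 < κ) :
    Summable fun k => tau κ k / dd e (k + 1) := by
  refine Summable.of_nonneg_of_le (fun k => (ratio_pos he k).le) (fun k => ratio_le he k) ?_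
  exact (hN κ 262144 hκ (by norm_num)).1.mul_left _

theorem sum_tau (hN : TaskNum) {κ : ℝ} (hκ : 0 < κ) : Summable (tau κ) := by
  have := (hN κ 1 hκ le_rfl).1
  refine this.congr fun k => ?_
  rw [one_pow, one_mul, tau]

theorem ev1 (hN : TaskNum) {e κ : ℝ} (he : 0 < e) (hκ : 0 < κ) :
    ∀ᶠ k in atTop, 4 * tau κ k ≤ dd e (k + 1) := by
  have h := (sum_ratio hN he hκ).tendsto_atTop_zero
  filter_upwards [h.eventually_lt_const (show (0:ℝ) < 1 / 4 by norm_num)] with k hk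
  rw [div_lt_iff₀ (dd_pos he _)] at hk
  linarith

theorem ev2 (hN : TaskNum) {e κ : ℝ} (he : 0 < e) (hκ : 0 < κ) :
    ∀ᶠ k in atTop, aa (k + 1) + 4 * tau κ k / dd e (k + 1) ≤ aa k := by
  have h := tend0 hN hκ (show (1 : ℝ) ≤ 16 * 262144 by norm_num)
  have h2 := h.const_mul (4 * (8 * 257 ^ 4 / e))
  rw [mul_zero] at h2
  filter_upwards [h2.eventually_lt_const (show (0:ℝ) < 1 / 50 by norm_num)] with k hk
  have h3 := ratio_le (κ := κ) he k
  have hp : (0 : ℝ) < 16 ^ k := by positivity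
  have h1 : (1 : ℝ) ≤ 16 ^ k := one_le_pow₀ (by norm_num)
  have h4 : 4 * tau κ k / dd e (k + 1) ≤ 1 / 50 / 16 ^ k := by
    rw [le_div_iff₀ hp]
    calc 4 * tau κ k / dd e (k + 1) * 16 ^ k = 4 * (tau κ k / dd e (k + 1)) * 16 ^ k := by ring
      _ ≤ 4 * ((8 * 257 ^ 4 / e) * (262144 ^ k * Real.exp (-(κ * 4 ^ k)))) * 16 ^ k := by gcongr
      _ = 4 * (8 * 257 ^ 4 / e) * ((16 * 262144) ^ k * Real.exp (-(κ * 4 ^ k))) := by
          rw [mul_pow]; ring
      _ ≤ 1 / 50 := hk.le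
  have h5 : aa (k + 1) ≤ 1 / (256 * 16 ^ k) := by
    unfold aa
    rw [LLr, pow_succ]
    apply one_div_le_one_div_of_le (by positivity)
    linarith
  have h6 : 1 / (17 * 16 ^ k) ≤ aa k := by
    unfold aa
    rw [LLr]
    apply one_div_le_one_div_of_le (by positivity)
    linarith
  have h7 : (1 : ℝ) / (256 * 16 ^ k) + 1 / 50 / 16 ^ k ≤ 1 / (17 * 16 ^ k) := by
    rw [div_add_div _ _ (by positivity) (by positivity),
      div_le_div_iff₀ (by positivity) (by positivity)]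
    nlinarith [mul_pos hp hp]
  linarith

theorem tend1 : Tendsto (fun k => (2 * (LL k : ℝ) + 1) * aa k ^ 2) atTop (𝓝 0) := by
  have hL : Tendsto (fun k => (2 : ℝ) * aa k) atTop (𝓝 0) := by
    have h1 : Tendsto (fun k => (LL k : ℝ) + 1) atTop atTop :=
      tendsto_atTop_add_const_right _ _
        (tendsto_natCast_atTop_atTop.comp strict_LL.tendsto_atTop)
    have h2 := h1.inv_tendsto_atTop.const_mul 2
    rw [mul_zero] at h2
    refine h2.congr fun k => ?_
    simp [aa]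
  refine squeeze_zero (fun k => by positivity) (fun k => ?_) hL
  have h0 : (0:ℝ) ≤ LL k := Nat.cast_nonneg _
  unfold aa
  rw [div_pow, one_pow, mul_one_div, mul_one_div, div_le_div_iff₀ (by positivity) (by positivity)]
  nlinarith

theorem tend2 (hN : TaskNum) {e κ : ℝ} (he : 0 < e) (hκ : 0 < κ) :
    Tendsto (fun k => (2 * (LL k : ℝ) + 1) * ∑' j, tau κ (k + j) / dd e (k + j + 1))
      atTop (𝓝 0) := by
  obtain ⟨M, hM0, hM⟩ := bdd0 hN (half_pos hκ) (show (1:ℝ) ≤ 262144 by norm_num)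
  have h1 : ∀ k, tau κ k / dd e (k + 1) ≤
      (8 * 257 ^ 4 / e) * M * Real.exp (-(κ / 2 * 4 ^ k)) := by
    intro k
    refine (ratio_le he k).trans ?_
    have h2 : Real.exp (-(κ * 4 ^ k)) =
        Real.exp (-(κ / 2 * 4 ^ k)) * Real.exp (-(κ / 2 * 4 ^ k)) := by
      rw [← Real.exp_add]; ring_nf
    rw [h2]
    calc (8 * 257 ^ 4 / e) * (262144 ^ k * (Real.exp (-(κ / 2 * 4 ^ k)) *
          Real.exp (-(κ / 2 * 4 ^ k))))
        = (8 * 257 ^ 4 / e) * (262144 ^ k * Real.exp (-(κ / 2 * 4 ^ k))) *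
          Real.exp (-(κ / 2 * 4 ^ k)) := by ring
      _ ≤ _ := by gcongr; exact hM k
  have hs : Summable fun k : ℕ => Real.exp (-(κ / 2 * 4 ^ k)) := by
    have := (hN (κ / 2) 1 (half_pos hκ) le_rfl).1
    simpa using this
  have h3 := (hN (κ / 2) 16 (half_pos hκ) (by norm_num)).2.const_mul
    (33 * ((8 * 257 ^ 4 / e) * M))
  rw [mul_zero] at h3
  have hsh : ∀ k, Summable fun j => tau κ (k + j) / dd e (k + j + 1) := by
    intro k
    have := (summable_nat_add_iff k).2 (sum_ratio hN he hκ)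
    refine this.congr fun j => ?_
    rw [add_comm j k]
  have hsh2 : ∀ k : ℕ, Summable fun j : ℕ => Real.exp (-(κ / 2 * 4 ^ (k + j))) := by
    intro k
    have := (summable_nat_add_iff k).2 hs
    refine this.congr fun j => ?_
    rw [add_comm j k]
  refine squeeze_zero (fun k => ?_) (fun k => ?_) h3
  · have : 0 ≤ ∑' j, tau κ (k + j) / dd e (k + j + 1) :=
      tsum_nonneg fun j => (ratio_pos he _).le
    positivity
  · have h4 : ∑' j, tau κ (k + j) / dd e (k + j + 1) ≤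
        ∑' j : ℕ, (8 * 257 ^ 4 / e) * M * Real.exp (-(κ / 2 * 4 ^ (k + j))) :=
      (hsh k).tsum_le_tsum (fun j => h1 (k + j)) ((hsh2 k).mul_left _)
    rw [tsum_mul_left] at h4
    have h5 : 2 * (LL k : ℝ) + 1 ≤ 33 * 16 ^ k := by
      rw [LLr]
      have : (1 : ℝ) ≤ 16 ^ k := one_le_pow₀ (by norm_num)
      linarith
    have h6 : 0 ≤ ∑' j, tau κ (k + j) / dd e (k + j + 1) :=
      tsum_nonneg fun j => (ratio_pos he _).le
    calc (2 * (LL k : ℝ) + 1) * ∑' j, tau κ (k + j) / dd e (k + j + 1)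
        ≤ (33 * 16 ^ k) * ((8 * 257 ^ 4 / e) * M *
          ∑' j : ℕ, Real.exp (-(κ / 2 * 4 ^ (k + j)))) := by gcongr
      _ = _ := by ring

/-- summability of the probabilities of the first bad events -/
theorem sumP1 (hN : TaskNum) {e c C R : ℝ} (he : 0 < e) (h1 : e ≤ 1) (hc : 0 < c)
    (hc2 : c ≤ 1 / 2) (hC : 0 < C) :
    Summable fun k => C * R ^ 2 / (eps e k ^ 3 * aa k ^ 2 * tau (2 * c * e ^ 2) k) *
      (1 - c * eps e k ^ 2) ^ LL k := by
  have hκ : 0 < 2 * c * e ^ 2 := by positivity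
  have hs := ((hN (2 * c * e ^ 2) 2048 hκ (by norm_num)).1).mul_left
    (C * R ^ 2 * (8 * 289 / e ^ 3))
  refine Summable.of_nonneg_of_le (fun k => ?_) (fun k => ?_) hs
  · have h2 : 0 ≤ 1 - c * eps e k ^ 2 := by
      have := eps_le he h1 k
      have := eps_pos he k
      nlinarith
    have := eps_pos he k
    have := aa_pos k
    have := tau_pos (2 * c * e ^ 2) k
    positivity
  · have hb : (1 - c * eps e k ^ 2) ^ LL k ≤
        Real.exp (-(2 * c * e ^ 2 * 4 ^ k)) * Real.exp (-(2 * c * e ^ 2 * 4 ^ k)) := by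
      have h2 : 0 ≤ 1 - c * eps e k ^ 2 := by
        have := eps_le he h1 k
        have := eps_pos he k
        nlinarith
      have h3 : 1 - c * eps e k ^ 2 ≤ Real.exp (-(c * eps e k ^ 2)) := by
        have := Real.add_one_le_exp (-(c * eps e k ^ 2))
        linarith
      calc (1 - c * eps e k ^ 2) ^ LL k ≤ (Real.exp (-(c * eps e k ^ 2))) ^ LL k :=
            pow_le_pow_left₀ h2 h3 _
        _ = Real.exp (LL k * (-(c * eps e k ^ 2))) := by rw [← Real.exp_nat_mul]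
        _ = Real.exp (-(2 * c * e ^ 2 * 4 ^ k)) * Real.exp (-(2 * c * e ^ 2 * 4 ^ k)) := by
            rw [← Real.exp_add]
            congr 1
            rw [LLr]
            unfold eps
            have h4 : (16 : ℝ) ^ k = 2 ^ k * 2 ^ k * 4 ^ k := by
              rw [← mul_pow, ← mul_pow]; norm_num
            rw [h4, pow_succ]
            field_simp
            ring
    have h5 : 1 / aa k ^ 2 ≤ 289 * 256 ^ k := by
      unfold aa
      rw [LLr]
      have h6 : (16 * 16 ^ k : ℝ) + 1 ≤ 17 * 16 ^ k := by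
        have : (1 : ℝ) ≤ 16 ^ k := one_le_pow₀ (by norm_num)
        linarith
      have h7 : ((16 * 16 ^ k : ℝ) + 1) ^ 2 ≤ (17 * 16 ^ k) ^ 2 :=
        pow_le_pow_left₀ (by positivity) h6 2
      have h8 : ((17 * 16 ^ k : ℝ)) ^ 2 = 289 * 256 ^ k := by
        rw [mul_pow, ← pow_mul, mul_comm k 2, pow_mul]; norm_num
      rw [h8] at h7
      simpa using h7
    have h9 : 1 / eps e k ^ 3 = 8 * 8 ^ k / e ^ 3 := by
      unfold eps
      have : (8 : ℝ) ^ k = (2 ^ k) ^ 3 := by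
        rw [← pow_mul, mul_comm k 3, pow_mul]; norm_num
      rw [this, pow_succ]
      field_simp
      ring
    have h10 : 1 / tau (2 * c * e ^ 2) k * (Real.exp (-(2 * c * e ^ 2 * 4 ^ k)) *
        Real.exp (-(2 * c * e ^ 2 * 4 ^ k))) = Real.exp (-(2 * c * e ^ 2 * 4 ^ k)) := by
      unfold tau
      have := (Real.exp_pos (-(2 * c * e ^ 2 * 4 ^ k))).ne'
      field_simp
    have hep := eps_pos he k
    have hap := aa_pos k
    have htp := tau_pos (2 * c * e ^ 2) k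
    have hb0 : 0 ≤ (1 - c * eps e k ^ 2) ^ LL k := by
      have := eps_le he h1 k
      exact pow_nonneg (by nlinarith) _
    calc C * R ^ 2 / (eps e k ^ 3 * aa k ^ 2 * tau (2 * c * e ^ 2) k) *
          (1 - c * eps e k ^ 2) ^ LL k
        = C * R ^ 2 * (1 / eps e k ^ 3) * (1 / aa k ^ 2) * (1 / tau (2 * c * e ^ 2) k) *
          (1 - c * eps e k ^ 2) ^ LL k := by field_simp
      _ ≤ C * R ^ 2 * (1 / eps e k ^ 3) * (289 * 256 ^ k) * (1 / tau (2 * c * e ^ 2) k) *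
          (Real.exp (-(2 * c * e ^ 2 * 4 ^ k)) * Real.exp (-(2 * c * e ^ 2 * 4 ^ k))) := by
          gcongr
      _ = C * R ^ 2 * (8 * 8 ^ k / e ^ 3) * (289 * 256 ^ k) *
          (1 / tau (2 * c * e ^ 2) k *
          (Real.exp (-(2 * c * e ^ 2 * 4 ^ k)) * Real.exp (-(2 * c * e ^ 2 * 4 ^ k)))) := by
          rw [h9]; ring
      _ = C * R ^ 2 * (8 * 289 / e ^ 3) * (2048 ^ k * Real.exp (-(2 * c * e ^ 2 * 4 ^ k))) := by
          rw [h10]
          have : (2048 : ℝ) ^ k = 8 ^ k * 256 ^ k := by rw [← mul_pow]; norm_num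
          rw [this]; ring

/-- summability of the probabilities of the second bad events -/
theorem sumP2 {e C : ℝ} (he : 0 < e) :
    Summable fun k => C * ((LL k : ℝ) + 1) ^ 4 * dd e k / eps e k := by
  have h : (fun k => C * ((LL k : ℝ) + 1) ^ 4 * dd e k / eps e k) =
      fun k : ℕ => C * (1 / 2) ^ k := by
    funext k
    unfold dd eps
    rw [one_div, inv_pow]
    have : (0:ℝ) < (LL k : ℝ) + 1 := by positivity
    field_simp
  rw [h]
  exact (summable_geometric_of_lt_one (by norm_num) (by norm_num)).mul_left _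

end Pool.Agent.Run7.h165.LP
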